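import Mathlib
import Pool.Agent.H182R3.MO.Stmts

set_option autoImplicit false

open MeasureTheory Set Filter Topology
open scoped ContDiff Real

namespace Pool.Agent.H385R3.MO

open Pool.Agent.H182R3.MO

/-- a globally smooth function equal to `x ^ p` for `x ≥ m > 0`. -/
lemma exists_smooth_rpow (m p : ℝ) (hm : 0 < m) :
    ∃ ρ : ℝ → ℝ, ContDiff ℝ ∞ ρ ∧ ∀ x, m ≤ x → ρ x = x ^ p := by
  refine ⟨fun x => Real.smoothTransition (2 * x / m - 1) * x ^ p, ?_, ?_⟩
  · rw [contDiff_iff_contDiffAt]
    intro x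
    rcases lt_or_ge x (m / 2) with hx | hx
    · have h : (fun x => Real.smoothTransition (2 * x / m - 1) * x ^ p) =ᶠ[𝓝 x] fun _ => 0 := by
        filter_upwards [Iio_mem_nhds hx] with y hy
        rw [Real.smoothTransition.zero_of_nonpos, zero_mul]
        have : 2 * y / m < 1 := by
          rw [div_lt_one hm]; simp only [mem_Iio] at hy; linarith
        linarith
      exact contDiffAt_const.congr_of_eventuallyEq h
    · have hx0 : x ≠ 0 := by linarith
      refine ContDiffAt.mul ?_ (Real.contDiffAt_rpow_const_of_ne hx0)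
      refine (Real.smoothTransition.contDiff.comp ?_).contDiffAt
      fun_prop
  · intro x hx
    simp only
    rw [Real.smoothTransition.one_of_one_le, one_mul]
    have : 1 ≤ x / m := by rw [le_div_iff₀ hm]; linarith
    have h2 : 2 * x / m = 2 * (x / m) := by ring
    rw [h2]; linarith

theorem t : TaskC := by
  intro a r0 r1 ha ha1 hr0 hr01 hr1 hA
  -- lower bound for `BB a r0 - A r`
  obtain ⟨m, hm, hmA⟩ : ∃ m : ℝ, 0 < m ∧ ∀ r ∈ Icc r0 r1, m ≤ BB a r0 - ((1 + a) * r - a) ^ 2 := by
    have hcont : ContinuousOn (fun r : ℝ => BB a r0 - ((1 + a) * r - a) ^ 2) (Icc r0 r1) := by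
      fun_prop
    obtain ⟨x, hx, hmin⟩ := isCompact_Icc.exists_isMinOn ⟨r0, by simp [hr01.le]⟩ hcont
    exact ⟨_, sub_pos.2 (hA x hx), fun r hr => hmin hr⟩
  have hm1 : 0 < 2 * (r0 * (a * (1 - r1))) := by
    have : 0 < 1 - r1 := by linarith
    positivity
  obtain ⟨ι, hι, hι1⟩ := exists_smooth_rpow (2 * (r0 * (a * (1 - r1)))) (-1) hm1
  obtain ⟨ρ, hρ, hρ1⟩ := exists_smooth_rpow (m * (2 * a)) (-(1 / 2)) (by positivity)
  have hBBmono : ∀ q r : ℝ, r0 ≤ q → q ≤ r → BB a q ≤ BB a r := by
    intro q r h1 h2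
    unfold BB
    have : 0 ≤ a + (1 - a) * q := by
      have := mul_nonneg (sub_nonneg.2 ha1.le) (hr0.le.trans h1)
      linarith
    have h3 : a + (1 - a) * q ≤ a + (1 - a) * r := by
      have := mul_le_mul_of_nonneg_left h2 (sub_nonneg.2 ha1.le)
      linarith
    exact pow_le_pow_left₀ this h3 2
  have hbpos : ∀ q : ℝ, r0 ≤ q → a ≤ a + (1 - a) * q := by
    intro q h1
    have := mul_nonneg (sub_nonneg.2 ha1.le) (hr0.le.trans h1)
    linarith
  -- lower bounds
  have hR : ∀ r ∈ Icc r0 r1, 2 * (r0 * (a * (1 - r1))) ≤ 2 * (r * (a * (1 - r))) := by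
    intro r hr
    have h1 : a * (1 - r1) ≤ a * (1 - r) := by
      apply mul_le_mul_of_nonneg_left _ ha.le; linarith [hr.2]
    have h2 : 0 ≤ a * (1 - r1) := mul_nonneg ha.le (by linarith)
    have := mul_le_mul hr.1 h1 h2 (hr0.le.trans hr.1)
    linarith
  have hP : ∀ r ∈ Icc r0 r1, ∀ q, r0 ≤ q → q ≤ r →
      m * (2 * a) ≤ (BB a q - ((1 + a) * r - a) ^ 2) * ((a + (1 - a) * r) + (a + (1 - a) * q)) := by
    intro r hr q h1 h2
    have h3 := hmA r hr
    have h4 := hBBmono r0 q le_rfl h1
    refine mul_le_mul (by linarith) ?_ (by positivity) (by linarith)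
    have := hbpos q h1
    have := hbpos r hr.1
    linarith
  refine ⟨fun r q => 2 * √(1 - a) * (a + (1 - a) * q) *
    (1 - (BB a r - BB a q) * ι (2 * (r * (a * (1 - r))))) *
    ρ ((BB a q - ((1 + a) * r - a) ^ 2) * ((a + (1 - a) * r) + (a + (1 - a) * q))), ?_, ?_, ?_⟩
  · unfold BB
    have e1 : ContDiff ℝ ∞ (fun p : ℝ × ℝ => ι (2 * (p.1 * (a * (1 - p.1))))) :=
      hι.comp (by fun_prop)
    have e2 : ContDiff ℝ ∞ (fun p : ℝ × ℝ => ρ (((a + (1 - a) * p.2) ^ 2 -
        ((1 + a) * p.1 - a) ^ 2) * ((a + (1 - a) * p.1) + (a + (1 - a) * p.2)))) :=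
      hρ.comp (by fun_prop)
    refine ContDiff.mul (ContDiff.mul (by fun_prop) ?_) e2
    exact contDiff_const.sub (ContDiff.mul (by fun_prop) e1)
  · intro r hr
    simp only [sub_self, zero_mul, sub_zero, mul_one]
    rw [hρ1 _ (hP r hr r hr.1 le_rfl)]
    have h1 : 0 < √(1 - a) := Real.sqrt_pos.2 (by linarith)
    have h2 := hbpos r hr.1
    have h3 := hP r hr r hr.1 le_rfl
    have h4 : 0 < m * (2 * a) := by positivity
    have h5 : 0 < a + (1 - a) * r := by linarith
    have h6 := Real.rpow_pos_of_pos (h4.trans_le h3) (-(1 / 2))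
    positivity
  · intro v w hv hw hv0 hw0 hwv r hr
    set R : ℝ := a * (1 - r) with hRdef
    set X : ℝ := √(r - r0) with hX
    have hrr0 : 0 ≤ r - r0 := by linarith [hr.1]
    have hX0 : 0 ≤ X := Real.sqrt_nonneg _
    have hX2 : X ^ 2 = r - r0 := Real.sq_sqrt hrr0
    have hrR : 0 < 2 * (r * R) := hm1.trans_le (hR r hr)
    have hr_pos : 0 < r := hr0.trans_le hr.1
    have hR_pos : 0 < R := by
      have : 0 < r * R := by linarith
      exact (mul_pos_iff_of_pos_left hr_pos).1 this
    have hrne : r ≠ 0 := hr_pos.ne'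
    have hRne : R ≠ 0 := hR_pos.ne'
    have hAr : BB a r - 4 * (r * R) = ((1 + a) * r - a) ^ 2 := by
      simp only [BB, hRdef]; ring
    have hsum : r ^ 2 + R ^ 2 = BB a r - 2 * (r * R) := by
      simp only [BB, hRdef]; ring
    -- cosine
    set c : ℝ → ℝ := fun x => 1 - (BB a r - BB a (r - x ^ 2)) / (2 * (r * R)) with hc
    set P : ℝ → ℝ := fun x => (BB a (r - x ^ 2) - ((1 + a) * r - a) ^ 2) *
      ((a + (1 - a) * r) + (a + (1 - a) * (r - x ^ 2))) with hPdef
    set T' : ℝ → ℝ := fun x => 4 * √(1 - a) * (a + (1 - a) * (r - x ^ 2)) * (P x) ^ (-(1 / 2) : ℝ)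
      with hT'
    have hq : ∀ x, 0 ≤ x → x ≤ X → r0 ≤ r - x ^ 2 ∧ r - x ^ 2 ≤ r := by
      intro x h0 h1
      have : x ^ 2 ≤ X ^ 2 := pow_le_pow_left₀ h0 h1 2
      constructor
      · linarith
      · linarith [sq_nonneg x]
    have hPpos : ∀ x, 0 ≤ x → x ≤ X → 0 < P x := by
      intro x h0 h1
      have h2 := hP r hr (r - x ^ 2) (hq x h0 h1).1 (hq x h0 h1).2
      exact lt_of_lt_of_le (by positivity) h2
    have hbr : ∀ x, 0 ≤ x → x ≤ X → 0 < (a + (1 - a) * r) + (a + (1 - a) * (r - x ^ 2)) := by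
      intro x h0 h1
      have := hbpos r hr.1
      have := hbpos (r - x ^ 2) (hq x h0 h1).1
      linarith
    have hBA : ∀ x, 0 ≤ x → x ≤ X → 0 < BB a (r - x ^ 2) - ((1 + a) * r - a) ^ 2 := by
      intro x h0 h1
      exact (mul_pos_iff_of_pos_right (hbr x h0 h1)).1 (hPpos x h0 h1)
    have hdiff : ∀ x : ℝ, BB a r - BB a (r - x ^ 2) =
        (1 - a) * x ^ 2 * ((a + (1 - a) * r) + (a + (1 - a) * (r - x ^ 2))) := by
      intro x; simp only [BB]; ring
    have h1c : ∀ x, 1 - c x = (BB a r - BB a (r - x ^ 2)) / (2 * (r * R)) := by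
      intro x; simp only [hc]; ring
    have h1c' : ∀ x, 1 + c x = (BB a (r - x ^ 2) - ((1 + a) * r - a) ^ 2) / (2 * (r * R)) := by
      intro x; rw [← hAr]; simp only [hc]; field_simp; ring
    have hcle : ∀ x, 0 ≤ x → x ≤ X → c x ≤ 1 := by
      intro x h0 h1
      have : 0 ≤ 1 - c x := by
        rw [h1c, hdiff]
        have := (hbr x h0 h1).le
        have h5 : 0 ≤ 1 - a := by linarith
        positivity
      linarith
    have hclt : ∀ x, 0 < x → x ≤ X → c x < 1 := by
      intro x h0 h1
      have : 0 < 1 - c x := by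
        rw [h1c, hdiff]
        have := (hbr x h0.le h1)
        have h5 : 0 < 1 - a := by linarith
        positivity
      linarith
    have hcge : ∀ x, 0 ≤ x → x ≤ X → -1 < c x := by
      intro x h0 h1
      have : 0 < 1 + c x := by
        rw [h1c']
        exact div_pos (hBA x h0 h1) hrR
      linarith
    -- the change of variables
    set T : ℝ → ℝ := fun x => Real.arccos (c x) with hT
    have hccont : Continuous c := by
      simp only [hc, BB]; fun_prop
    have hTcont : Continuous T := Real.continuous_arccos.comp hccont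
    have hT0 : T 0 = 0 := by
      simp [hT, hc]
    have hcosT : ∀ x, 0 ≤ x → x ≤ X → Real.cos (T x) = c x := fun x h0 h1 =>
      Real.cos_arccos (hcge x h0 h1).le (hcle x h0 h1)
    have hUUT : ∀ x, 0 ≤ x → x ≤ X → UU a r (T x) = BB a (r - x ^ 2) := by
      intro x h0 h1
      rw [UU, hcosT x h0 h1]
      change r ^ 2 + R ^ 2 + 2 * (r * R) * c x = _
      rw [hsum]
      simp only [hc]
      field_simp
      ring
    have hderiv : ∀ x ∈ Ioo 0 X, HasDerivAt T (T' x) x := by
      intro x hx
      have hcd : HasDerivAt c (-(4 * (1 - a) * (a + (1 - a) * (r - x ^ 2)) * x / (2 * (r * R)))) x := by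
        have h1 : HasDerivAt (fun y : ℝ => r - y ^ 2) (-(2 * x)) x := by
          simpa using ((hasDerivAt_id x).pow 2).const_sub r
        have h2 : HasDerivAt (fun y : ℝ => BB a (r - y ^ 2))
            (2 * (a + (1 - a) * (r - x ^ 2)) * ((1 - a) * (-(2 * x)))) x := by
          have h3 := ((h1.const_mul (1 - a)).const_add a).fun_pow 2
          have h3' : HasDerivAt (fun y : ℝ => BB a (r - y ^ 2)) _ x := h3
          exact h3'.congr_deriv (by norm_num)
        have h4 := (((h2.const_sub (BB a r)).div_const (2 * (r * R))).const_sub 1)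
        have e : -(4 * (1 - a) * (a + (1 - a) * (r - x ^ 2)) * x / (2 * (r * R))) =
            -(-(2 * (a + (1 - a) * (r - x ^ 2)) * ((1 - a) * (-(2 * x)))) / (2 * (r * R))) := by
          ring
        rw [e]
        exact h4
      have h5 := (Real.hasDerivAt_arccos (hcge x hx.1.le hx.2.le).ne'
        (hclt x hx.1 hx.2.le).ne).comp x hcd
      have h6 : T' x = -(1 / √(1 - c x ^ 2)) *
          -(4 * (1 - a) * (a + (1 - a) * (r - x ^ 2)) * x / (2 * (r * R))) := by
        have h7 : 1 - c x ^ 2 = (x * √(1 - a) * √(P x) / (2 * (r * R))) ^ 2 := by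
          have e1 : 1 - c x ^ 2 = (1 - c x) * (1 + c x) := by ring
          rw [e1, h1c, h1c', hdiff, div_pow, mul_pow, mul_pow, Real.sq_sqrt (by linarith),
            Real.sq_sqrt (hPpos x hx.1.le hx.2.le).le]
          simp only [hPdef]
          field_simp
        have hs1 : 0 < √(1 - a) := Real.sqrt_pos.2 (by linarith)
        have hs2 : 0 < √(P x) := Real.sqrt_pos.2 (hPpos x hx.1.le hx.2.le)
        have hx0 := hx.1
        rw [h7, Real.sqrt_sq (by positivity)]
        simp only [hT']
        rw [Real.rpow_neg (hPpos x hx.1.le hx.2.le).le, ← Real.sqrt_eq_rpow]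
        have h8 : (1 - a) = √(1 - a) * √(1 - a) := (Real.mul_self_sqrt (by linarith)).symm
        have h9 : x ≠ 0 := hx0.ne'
        have h10 : 2 * (r * R) ≠ 0 := hrR.ne'
        have h11 : -(1 / (x * √(1 - a) * √(P x) / (2 * (r * R)))) *
          -(4 * (1 - a) * (a + (1 - a) * (r - x ^ 2)) * x / (2 * (r * R))) =
          4 * ((1 - a) / √(1 - a)) * (a + (1 - a) * (r - x ^ 2)) * (√(P x))⁻¹ := by
          field_simp
        rw [h11]
        have h12 : (1 - a) / √(1 - a) = √(1 - a) := by
          rw [div_eq_iff hs1.ne']; exact h8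
        rw [h12]
      rw [h6]; exact h5
    have hT'cont : ContinuousOn T' (uIcc 0 X) := by
      rw [uIcc_of_le hX0]
      have hPc : Continuous P := by simp only [hPdef, BB]; fun_prop
      refine ContinuousOn.mul (by fun_prop) ?_
      exact hPc.continuousOn.rpow_const fun x hx => Or.inl (hPpos x hx.1 hx.2).ne'
    have hgcont : Continuous (fun t => v (UU a r t) * Real.cos t) := by
      simp only [UU]; fun_prop
    have hcv := intervalIntegral.integral_comp_mul_deriv''' (f := T) (f' := T')
      (g := fun t => v (UU a r t) * Real.cos t) (a := 0) (b := X) hTcont.continuousOn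
      (by
        intro x hx
        rw [min_eq_left hX0, max_eq_right hX0] at hx
        exact (hderiv x hx).hasDerivWithinAt)
      hgcont.continuousOn
      (hgcont.continuousOn.integrableOn_compact (isCompact_uIcc.image hTcont))
      ((hgcont.comp hTcont).continuousOn.mul hT'cont |>.integrableOn_compact isCompact_uIcc)
    rw [hT0] at hcv
    have hsplit : EE a v r = ∫ t in (0 : ℝ)..(T X), v (UU a r t) * Real.cos t := by
      rw [EE, ← intervalIntegral.integral_add_adjacent_intervals
        (hgcont.intervalIntegrable 0 (T X)) (hgcont.intervalIntegrable (T X) π)]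
      have hz : ∫ t in (T X)..π, v (UU a r t) * Real.cos t = 0 := by
        apply intervalIntegral.integral_zero_ae
        refine Eventually.of_forall fun t ht => ?_
        rw [uIoc_of_le (Real.arccos_le_pi _)] at ht
        have h1 : Real.cos t ≤ Real.cos (T X) :=
          Real.cos_le_cos_of_nonneg_of_le_pi (Real.arccos_nonneg _) ht.2 ht.1.le
        have h2 : UU a r t ≤ BB a r0 := by
          have h3 := hUUT X hX0 le_rfl
          rw [hX2] at h3
          have h4 : r - (r - r0) = r0 := by ring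
          rw [h4] at h3
          rw [← h3, UU, UU]
          have := mul_le_mul_of_nonneg_left h1 hrR.le
          linarith
        rw [hv0 _ h2, zero_mul]
      rw [hz, add_zero]
    rw [hsplit, ← hcv]
    -- right-hand side
    set F : ℝ → ℝ := fun x => w (r - x ^ 2) * (2 * √(1 - a) * (a + (1 - a) * (r - x ^ 2)) *
      (1 - (BB a r - BB a (r - x ^ 2)) * ι (2 * (r * R))) *
      ρ ((BB a (r - x ^ 2) - ((1 + a) * r - a) ^ 2) *
        ((a + (1 - a) * r) + (a + (1 - a) * (r - x ^ 2))))) with hF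
    have hF1 : ∫ x, F x = 2 * ∫ x in (0 : ℝ)..X, F x := by
      have h1 : ∀ x, F x = F |x| := by intro x; simp only [hF, sq_abs]
      have h2 : ∫ x, F x = ∫ x, F |x| := integral_congr_ae (Eventually.of_forall h1)
      rw [h2, integral_comp_abs, intervalIntegral.integral_of_le hX0]
      congr 1
      refine setIntegral_eq_of_subset_of_forall_diff_eq_zero measurableSet_Ioi
        (fun x hx => hx.1) ?_
      intro x hx
      have hx0 : 0 < x := hx.1
      have hxX : X < x := by
        by_contra hcon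
        exact hx.2 ⟨hx0, not_lt.1 hcon⟩
      have h3 : r - x ^ 2 ≤ r0 := by
        have : X ^ 2 ≤ x ^ 2 := pow_le_pow_left₀ hX0 hxX.le 2
        linarith
      simp only [hF]
      rw [hw0 _ h3, zero_mul]
    change _ = ∫ x, F x
    rw [hF1, ← intervalIntegral.integral_const_mul]
    refine intervalIntegral.integral_congr fun x hx => ?_
    rw [uIcc_of_le hX0] at hx
    simp only [Function.comp]
    rw [hUUT x hx.1 hx.2, hcosT x hx.1 hx.2, ← hwv _ (hq x hx.1 hx.2).1]
    simp only [hF]
    rw [hι1 _ (hR r hr), hρ1 _ (hP r hr _ (hq x hx.1 hx.2).1 (hq x hx.1 hx.2).2), Real.rpow_neg_one]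
    simp only [hT', hc, hPdef]
    ring

end Pool.Agent.H385R3.MO
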