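import Mathlib

open Filter Topology
open scoped ENNReal

namespace Pool.Agent.H385R3.SubScale

variable {V W : Type*}

/-- A set of vertices whose distinct members are at distance at least `k`. -/
def Separated (G : SimpleGraph V) (k : ℕ) (N : Set V) : Prop :=
  ∀ u ∈ N, ∀ v ∈ N, u ≠ v → k ≤ G.dist u v

/-- A `k`-net: a `k`-separated set of vertices which is maximal under inclusion. -/
def IsNet (G : SimpleGraph V) (k : ℕ) (N : Set V) : Prop :=
  Maximal (Separated G k) N

/-- The `k`-net graph on `N`: two members are joined iff `0 < d(u,v) ≤ 2k`. -/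
def netGraph (G : SimpleGraph V) (k : ℕ) (N : Set V) : SimpleGraph N where
  Adj u v := 0 < G.dist (u : V) v ∧ G.dist (u : V) v ≤ 2 * k
  symm := ⟨by
    intro u v h
    rw [SimpleGraph.dist_comm] at h
    exact h⟩
  loopless := ⟨by
    intro u h
    simp at h⟩

/-- `C`-rough isometries between two (connected) graphs with their graph distances. -/
def IsRoughIsometry (G : SimpleGraph V) (H : SimpleGraph W) (C : ℝ) (f : V → W) : Prop :=
  (∀ x y : V, C⁻¹ * (H.dist (f x) (f y) : ℝ) - C ≤ (G.dist x y : ℝ) ∧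
      (G.dist x y : ℝ) ≤ C * (H.dist (f x) (f y) : ℝ) + C) ∧
    ∀ y : W, ∃ x : V, (H.dist (f x) y : ℝ) < C

/-- `C_k` for the `k`-net `N`: the infimum (in `[0,∞]`) of all `C > 0` for which there is a
`C`-rough isometry from `G` to the net graph. -/
noncomputable def scaleConst (G : SimpleGraph V) (k : ℕ) (N : Set V) : ℝ≥0∞ :=
  sInf {c : ℝ≥0∞ | ∃ C : ℝ, 0 < C ∧ c = ENNReal.ofReal C ∧
    ∃ f : V → N, IsRoughIsometry G (netGraph G k N) C f}

/-- `G` is sub scale invariant: `C_k → 1` for every choice of the nets. -/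
def SubScaleInvariant (G : SimpleGraph V) : Prop :=
  ∀ N : ℕ → Set V, (∀ k, 1 ≤ k → IsNet G k (N k)) →
    Tendsto (fun k => scaleConst G k (N k)) atTop (𝓝 1)

/-- `Aut(G)` acts transitively on the vertices. -/
def VertexTransitive (G : SimpleGraph V) : Prop :=
  ∀ u v : V, ∃ φ : G ≃g G, φ u = v

/-- Every vertex has finitely many neighbours. -/
def LocFinite (G : SimpleGraph V) : Prop := ∀ v : V, (G.neighborSet v).Finite

/-- Volume doubling: `|B(v,2r)| ≤ C |B(v,r)|` for all vertices `v` and all real `r > 0`. -/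
def VolumeDoubling (G : SimpleGraph V) : Prop :=
  ∃ C : ℝ, 0 < C ∧ ∀ v : V, ∀ r : ℝ, 0 < r →
    ({u : V | (G.dist v u : ℝ) ≤ 2 * r}.ncard : ℝ) ≤ C * ({u : V | (G.dist v u : ℝ) ≤ r}.ncard : ℝ)

/-! ### General facts -/

theorem net_near {G : SimpleGraph V} {k : ℕ} {N : Set V} (hN : IsNet G k N) (hk : 1 ≤ k) (w : V) :
    ∃ n ∈ N, G.dist w n < k := by
  by_contra hcon
  push Not at hcon
  have hsep : Separated G k (insert w N) := by
    intro u hu v hv huv
    rcases hu with rfl | hu
    · rcases hv with rfl | hv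
      · exact absurd rfl huv
      · exact hcon v hv
    · rcases hv with rfl | hv
      · rw [SimpleGraph.dist_comm]; exact hcon u hu
      · exact hN.prop u hu v hv huv
  have hw : w ∈ N := hN.le_of_ge hsep (Set.subset_insert w N) (Set.mem_insert w N)
  have h := hcon w hw
  simp at h
  omega

theorem exists_net {G : SimpleGraph V} {k : ℕ} {F : Set V} (hF : Separated G k F) :
    ∃ N, F ⊆ N ∧ IsNet G k N := by
  obtain ⟨N, hFN, hN⟩ := zorn_subset_nonempty {N : Set V | Separated G k N} (by
    intro c hc hchain _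
    refine ⟨⋃₀ c, ?_, fun s hs => Set.subset_sUnion_of_mem hs⟩
    intro u hu v hv huv
    obtain ⟨s, hs, hus⟩ := hu
    obtain ⟨t, ht, hvt⟩ := hv
    rcases hchain.total hs ht with h | h
    · exact hc ht u (h hus) v hvt huv
    · exact hc hs u hus v (h hvt) huv) F hF
  exact ⟨N, hFN, hN⟩

theorem net_adj_or_eq {G : SimpleGraph V} (hG : G.Connected) {k : ℕ} {N : Set V} (u v : N)
    (h : G.dist (u : V) v ≤ 2 * k) : u = v ∨ (netGraph G k N).Adj u v := by
  by_cases huv : u = v
  · exact Or.inl huv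
  · right
    refine ⟨?_, h⟩
    rcases Nat.eq_zero_or_pos (G.dist (u : V) v) with h0 | h0
    · exfalso
      apply huv
      apply Subtype.ext
      exact (hG.dist_eq_zero_iff).1 h0
    · exact h0

theorem net_reachable {G : SimpleGraph V} (hG : G.Connected) {k : ℕ} {N : Set V}
    (hN : IsNet G k N) (hk : 1 ≤ k) {x y : V} (p : G.Walk x y) :
    ∀ (a b : N), G.dist x a < k → G.dist y b < k → (netGraph G k N).Reachable a b := by
  induction p with
  | nil =>
    rename_i x
    intro a b ha hb
    have h : G.dist (a : V) b ≤ 2 * k := by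
      have := hG.dist_triangle (u := (a : V)) (v := x) (w := b)
      rw [SimpleGraph.dist_comm] at ha
      omega
    rcases net_adj_or_eq hG a b h with h | h
    · rw [h]
    · exact h.reachable
  | cons hadj p ih =>
    rename_i x z y
    intro a b ha hb
    obtain ⟨c, hcN, hc⟩ := net_near hN hk z
    have h1 : G.dist (a : V) c ≤ 2 * k := by
      have t1 := hG.dist_triangle (u := (a : V)) (v := x) (w := c)
      have t2 := hG.dist_triangle (u := x) (v := z) (w := c)
      have t3 : G.dist x z = 1 := SimpleGraph.dist_eq_one_iff_adj.2 hadj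
      rw [SimpleGraph.dist_comm] at ha
      omega
    have h2 := ih ⟨c, hcN⟩ b hc hb
    rcases net_adj_or_eq hG a ⟨c, hcN⟩ h1 with h | h
    · rw [h]; exact h2
    · exact h.reachable.trans h2

theorem netGraph_connected {G : SimpleGraph V} (hG : G.Connected) {k : ℕ} {N : Set V}
    (hN : IsNet G k N) (hk : 1 ≤ k) : (netGraph G k N).Connected := by
  have hne : Nonempty N := by
    obtain ⟨v⟩ := hG.nonempty
    obtain ⟨n, hn, _⟩ := net_near hN hk v
    exact ⟨⟨n, hn⟩⟩
  refine ⟨fun a b => ?_⟩
  obtain ⟨p⟩ := hG.preconnected (a : V) b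
  exact net_reachable hG hN hk p a b (by simp; omega) (by simp; omega)

theorem dist_le_walk {G : SimpleGraph V} (hG : G.Connected) {k : ℕ} {N : Set V} {a b : N}
    (p : (netGraph G k N).Walk a b) : G.dist (a : V) b ≤ 2 * k * p.length := by
  induction p with
  | nil => simp
  | cons hadj p ih =>
    rename_i a c b
    have t1 := hG.dist_triangle (u := (a : V)) (v := c) (w := b)
    have t2 := hadj.2
    rw [SimpleGraph.Walk.length_cons]
    nlinarith

theorem dist_le_netDist {G : SimpleGraph V} (hG : G.Connected) {k : ℕ} {N : Set V}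
    (hN : IsNet G k N) (hk : 1 ≤ k) (a b : N) :
    G.dist (a : V) b ≤ 2 * k * (netGraph G k N).dist a b := by
  obtain ⟨p, hp⟩ := (netGraph_connected hG hN hk).exists_walk_length_eq_dist a b
  rw [← hp]
  exact dist_le_walk hG p

theorem IsRoughIsometry.mono {G : SimpleGraph V} {H : SimpleGraph W} {C D : ℝ} {f : V → W}
    (h : IsRoughIsometry G H C f) (hC : 0 < C) (hCD : C ≤ D) : IsRoughIsometry G H D f := by
  refine ⟨fun x y => ?_, fun y => ?_⟩
  · obtain ⟨h1, h2⟩ := h.1 x y
    have hd : (0 : ℝ) ≤ (H.dist (f x) (f y) : ℝ) := Nat.cast_nonneg _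
    have hinv : D⁻¹ ≤ C⁻¹ := inv_anti₀ hC hCD
    constructor
    · have := mul_le_mul_of_nonneg_right hinv hd
      linarith
    · have := mul_le_mul_of_nonneg_right hCD hd
      linarith
  · obtain ⟨x, hx⟩ := h.2 y
    exact ⟨x, lt_of_lt_of_le hx hCD⟩

/-- If there is no `C`-rough isometry then `C ≤ C_k`. -/
theorem le_scaleConst {G : SimpleGraph V} {k : ℕ} {N : Set V} {C : ℝ}
    (h : ¬ ∃ f : V → N, IsRoughIsometry G (netGraph G k N) C f) :
    ENNReal.ofReal C ≤ scaleConst G k N := by
  apply le_sInf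
  rintro c ⟨D, hD, rfl, f, hf⟩
  apply ENNReal.ofReal_le_ofReal
  by_contra hlt
  push Not at hlt
  exact h ⟨f, hf.mono hD hlt.le⟩

theorem scaleConst_le {G : SimpleGraph V} {k : ℕ} {N : Set V} {C : ℝ} (hC : 0 < C)
    {f : V → N} (hf : IsRoughIsometry G (netGraph G k N) C f) :
    scaleConst G k N ≤ ENNReal.ofReal C :=
  sInf_le ⟨C, hC, rfl, f, hf⟩

end Pool.Agent.H385R3.SubScale
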