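import Pool.Agent.H385R3.SubScale

open Filter Topology
open scoped ENNReal

namespace Pool.Agent.H385R3.SubScale

/-- The bi-infinite path: the integers, `a` and `b` joined iff `|a - b| = 1`. -/
def pathZ : SimpleGraph ℤ where
  Adj a b := (a - b).natAbs = 1
  symm := ⟨by intro a b h; rw [← h]; rw [← Int.natAbs_neg]; congr 1; ring⟩
  loopless := ⟨by intro a h; simp at h⟩

theorem pathZ_walk (a : ℤ) (n : ℕ) : ∃ p : pathZ.Walk a (a + n), p.length = n := by
  induction n with
  | zero => exact ⟨SimpleGraph.Walk.nil.copy rfl (by simp), by simp⟩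
  | succ n ih =>
    obtain ⟨p, hp⟩ := ih
    have hadj : pathZ.Adj (a + n) (a + (n + 1 : ℕ)) := by
      show ((a + n) - (a + (n + 1 : ℕ))).natAbs = 1
      push_cast
      ring_nf
      rfl
    exact ⟨p.concat hadj, by rw [SimpleGraph.Walk.length_concat, hp]⟩

theorem pathZ_connected : pathZ.Connected := by
  refine ⟨fun a b => ?_⟩
  rcases le_total a b with h | h
  · obtain ⟨p, _⟩ := pathZ_walk a (b - a).toNat
    have e : a + ((b - a).toNat : ℤ) = b := by omega
    rw [e] at p
    exact ⟨p⟩
  · obtain ⟨p, _⟩ := pathZ_walk b (a - b).toNat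
    have e : b + ((a - b).toNat : ℤ) = a := by omega
    rw [e] at p
    exact ⟨p.reverse⟩

theorem pathZ_dist (a b : ℤ) : pathZ.dist a b = (a - b).natAbs := by
  apply le_antisymm
  · rcases le_total a b with h | h
    · obtain ⟨p, hp⟩ := pathZ_walk a (b - a).toNat
      have e : a + ((b - a).toNat : ℤ) = b := by omega
      have := SimpleGraph.dist_le p
      rw [hp, e] at this
      omega
    · obtain ⟨p, hp⟩ := pathZ_walk b (a - b).toNat
      have e : b + ((a - b).toNat : ℤ) = a := by omega
      have := SimpleGraph.dist_le p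
      rw [hp, e, SimpleGraph.dist_comm] at this
      omega
  · obtain ⟨p, hp⟩ := pathZ_connected.exists_walk_length_eq_dist a b
    rw [← hp]
    clear hp
    induction p with
    | nil => simp
    | cons hadj p ih =>
      rename_i x y z
      rw [SimpleGraph.Walk.length_cons]
      have : (x - y).natAbs = 1 := hadj
      omega

theorem pathZ_vt : VertexTransitive pathZ := by
  intro u v
  refine ⟨⟨Equiv.addRight (v - u), ?_⟩, by show u + (v - u) = v; ring⟩
  intro a b
  show ((a + (v - u)) - (b + (v - u))).natAbs = 1 ↔ (a - b).natAbs = 1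
  rw [show (a + (v - u)) - (b + (v - u)) = a - b by ring]

theorem pathZ_lf : LocFinite pathZ := by
  intro v
  apply Set.Finite.subset (Set.finite_Icc (v - 1) (v + 1))
  intro u hu
  have : (v - u).natAbs = 1 := hu
  rw [Set.mem_Icc]
  omega

section
variable {k : ℕ} {N : Set ℤ}

theorem net_sep (hN : IsNet pathZ k N) {u v : ℤ} (hu : u ∈ N) (hv : v ∈ N) (huv : u ≠ v) :
    k ≤ (u - v).natAbs := by
  have := hN.prop u hu v hv huv
  rwa [pathZ_dist] at this

theorem net_near' (hN : IsNet pathZ k N) (hk : 1 ≤ k) (w : ℤ) : ∃ n ∈ N, (w - n).natAbs < k := by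
  obtain ⟨n, hn, h⟩ := net_near hN hk w
  rw [pathZ_dist] at h
  exact ⟨n, hn, h⟩

/-- the farthest neighbour in the direction `e = ±1` -/
theorem exists_next (hN : IsNet pathZ k N) (hk : 1 ≤ k) (e : ℤ) (he : e = 1 ∨ e = -1) (u : N) :
    ∃ v : N, 0 < e * ((v : ℤ) - u) ∧ e * ((v : ℤ) - u) ≤ 2 * k ∧
      ∀ w : N, e * ((w : ℤ) - u) ≤ 2 * k → e * ((w : ℤ) - v) ≤ 0 := by
  -- a member ahead of u
  have hahead : ∃ w : N, 0 < e * ((w : ℤ) - u) ∧ e * ((w : ℤ) - u) ≤ 2 * k := by
    obtain ⟨n, hn, h⟩ := net_near' hN hk ((u : ℤ) + e * k)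
    refine ⟨⟨n, hn⟩, ?_, ?_⟩
    · show 0 < e * (n - u)
      rcases he with rfl | rfl <;> omega
    · show e * (n - u) ≤ 2 * k
      rcases he with rfl | rfl <;> omega
  obtain ⟨w0, hw0, hw0'⟩ := hahead
  -- maximise
  let P : ℤ → Prop := fun z => z ≤ 2 * k ∧ ∃ w : N, z = e * ((w : ℤ) - u)
  obtain ⟨z, ⟨hz1, v, hz2⟩, hz3⟩ := Int.exists_greatest_of_bdd (P := P) ⟨2 * k, fun z hz => hz.1⟩
    ⟨_, hw0', w0, rfl⟩
  refine ⟨v, ?_, ?_, ?_⟩
  · have := hz3 _ ⟨hw0', w0, rfl⟩
    omega
  · omega
  · intro w hw
    have := hz3 _ ⟨hw, w, rfl⟩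
    have h2 : e * ((w : ℤ) - v) = e * ((w : ℤ) - u) - e * ((v : ℤ) - u) := by ring
    omega

/-- A geodesic ray of the net graph in the direction `e`. -/
theorem exists_ray (hN : IsNet pathZ k N) (hk : 1 ≤ k) (e : ℤ) (he : e = 1 ∨ e = -1) (o : N) :
    ∃ r : ℕ → N, r 0 = o ∧ (∀ n, (netGraph pathZ k N).Adj (r n) (r (n + 1))) ∧
      (∀ n, 0 ≤ e * ((r n : ℤ) - o)) ∧
      (∀ n, (netGraph pathZ k N).dist o (r n) = n) ∧
      ∀ y : N, 0 ≤ e * ((y : ℤ) - o) → ∃ n, (netGraph pathZ k N).dist (r n) y ≤ 1 := by
  choose F hF1 hF2 hF3 using exists_next hN hk e he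
  set r : ℕ → N := fun n => F^[n] o with hr
  have hr0 : r 0 = o := rfl
  have hrs : ∀ n, r (n + 1) = F (r n) := fun n => Function.iterate_succ_apply' F n o
  have hadj : ∀ n, (netGraph pathZ k N).Adj (r n) (r (n + 1)) := by
    intro n
    show 0 < pathZ.dist (r n : ℤ) (r (n + 1)) ∧ pathZ.dist (r n : ℤ) (r (n + 1)) ≤ 2 * k
    rw [pathZ_dist, hrs]
    have h1 := hF1 (r n)
    have h2 := hF2 (r n)
    rcases he with rfl | rfl <;> constructor <;> omega
  have hpos : ∀ n : ℕ, (n : ℤ) ≤ e * ((r n : ℤ) - o) := by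
    intro n
    induction n with
    | zero => simp [hr0]
    | succ n ih =>
      have h1 := hF1 (r n)
      rw [hrs]
      have : e * ((F (r n) : ℤ) - o) = e * ((F (r n) : ℤ) - r n) + e * ((r n : ℤ) - o) := by ring
      rw [this]
      push_cast
      omega
  -- everything reached in n steps is not beyond r n
  have hmono : ∀ u u' : N, 0 ≤ e * ((u' : ℤ) - u) → 0 ≤ e * ((F u' : ℤ) - F u) := by
    intro u u' h
    have h1 : e * ((F u : ℤ) - u') ≤ 2 * k := by
      have := hF2 u
      have h2 : e * ((F u : ℤ) - u') = e * ((F u : ℤ) - u) - e * ((u' : ℤ) - u) := by ring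
      omega
    have h3 := hF3 u' (F u) h1
    have h4 : e * ((F u' : ℤ) - F u) = -(e * ((F u : ℤ) - F u')) := by ring
    omega
  have hreach : ∀ (n : ℕ) (a b : N) (p : (netGraph pathZ k N).Walk a b), p.length = n →
      ∀ m, e * ((a : ℤ) - r m) ≤ 0 → e * ((b : ℤ) - r (m + n)) ≤ 0 := by
    intro n
    induction n with
    | zero =>
      intro a b p hp m hm
      have := SimpleGraph.Walk.eq_of_length_eq_zero hp
      subst this
      simpa using hm
    | succ n ih =>
      intro a b p hp m hm
      cases p with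
      | nil => simp at hp
      | cons h p =>
        rename_i c
        rw [SimpleGraph.Walk.length_cons] at hp
        have h1 : e * ((c : ℤ) - r (m + 1)) ≤ 0 := by
          have hd : (a - c : ℤ).natAbs ≤ 2 * k := by
            have := h.2
            rwa [pathZ_dist] at this
          have h2 : e * ((c : ℤ) - a) ≤ 2 * k := by
            rcases he with rfl | rfl <;> omega
          have h3 := hF3 a c h2
          have h4 := hmono a (r m) (by
            have : e * ((r m : ℤ) - a) = -(e * ((a : ℤ) - r m)) := by ring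
            omega)
          rw [hrs]
          have h5 : e * ((c : ℤ) - F (r m)) = e * ((c : ℤ) - F a) - e * ((F (r m) : ℤ) - F a) := by
            ring
          omega
        have := ih c b p (by omega) (m + 1) h1
        rwa [show m + (n + 1) = m + 1 + n by ring]
  have hconn := netGraph_connected pathZ_connected hN hk
  have hlt : ∀ m n, m < n → 0 < e * ((r n : ℤ) - r m) := by
    intro m n hmn
    induction n with
    | zero => omega
    | succ n ih =>
      have h1 := hF1 (r n)
      rw [hrs]
      have h2 : e * ((F (r n) : ℤ) - r m) = e * ((F (r n) : ℤ) - r n) + e * ((r n : ℤ) - r m) := by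
        ring
      rcases Nat.lt_or_ge m n with h | h
      · have := ih h
        omega
      · have : m = n := by omega
        subst this
        simpa using h1
  refine ⟨r, hr0, hadj, fun n => ?_, fun n => ?_, ?_⟩
  · have := hpos n
    omega
  · apply le_antisymm
    · induction n with
      | zero => simp [hr0]
      | succ n ih =>
        have t := hconn.dist_triangle (u := o) (v := r n) (w := r (n + 1))
        rw [SimpleGraph.dist_eq_one_iff_adj.2 (hadj n)] at t
        omega
    · obtain ⟨p, hp⟩ := hconn.exists_walk_length_eq_dist o (r n)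
      by_contra hcon
      push Not at hcon
      have h1 := hreach _ o (r n) p hp 0 (by simp [hr0])
      have h2 := hlt _ _ hcon
      rw [zero_add] at h1
      omega
  · intro y hy
    -- least n with y not beyond r (n+1)
    have hex : ∃ n : ℕ, e * ((y : ℤ) - r n) < 0 := by
      refine ⟨(e * ((y : ℤ) - o)).toNat + 1, ?_⟩
      have h1 := hpos ((e * ((y : ℤ) - o)).toNat + 1)
      have h2 : e * ((y : ℤ) - r ((e * ((y : ℤ) - o)).toNat + 1)) =
        e * ((y : ℤ) - o) - e * ((r ((e * ((y : ℤ) - o)).toNat + 1) : ℤ) - o) := by ring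
      push_cast at h1
      omega
    classical
    have hspec := Nat.find_spec hex
    have hne : Nat.find hex ≠ 0 := by
      intro h0
      rw [h0, hr0] at hspec
      omega
    obtain ⟨n, hn⟩ := Nat.exists_eq_succ_of_ne_zero hne
    rw [hn, Nat.succ_eq_add_one] at hspec
    have hmin := Nat.find_min hex (m := n) (by omega)
    refine ⟨n, ?_⟩
    have hd : pathZ.dist (r n : ℤ) y ≤ 2 * k := by
      rw [pathZ_dist]
      have h1 := hF2 (r n)
      rw [hrs] at hspec
      have h2 : e * ((y : ℤ) - F (r n)) = e * ((y : ℤ) - r n) - e * ((F (r n) : ℤ) - r n) := by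
        ring
      rcases he with rfl | rfl <;> omega
    rcases net_adj_or_eq pathZ_connected (r n) y hd with h | h
    · rw [h]; simp
    · rw [SimpleGraph.dist_eq_one_iff_adj.2 h]

/-- A walk crossing `o` has an edge crossing `o`, so the distance is almost additive. -/
theorem cross_aux (hN : IsNet pathZ k N) (hk : 1 ≤ k) (o : N) (a b : N)
    (p : (netGraph pathZ k N).Walk a b) (ha : (a : ℤ) ≤ o) (hb : (o : ℤ) ≤ b) :
    (netGraph pathZ k N).dist o a + (netGraph pathZ k N).dist o b ≤ p.length + 1 := by
  have hconn := netGraph_connected pathZ_connected hN hk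
  induction p with
  | nil =>
    rename_i a
    have : o = a := Subtype.ext (le_antisymm hb ha)
    subst this
    simp
  | cons h p ih =>
    rename_i a c b
    rw [SimpleGraph.Walk.length_cons]
    rcases le_or_gt (c : ℤ) o with hc | hc
    · have h1 := ih hc hb
      have t := hconn.dist_triangle (u := o) (v := c) (w := a)
      rw [SimpleGraph.dist_eq_one_iff_adj.2 h.symm] at t
      omega
    · -- the edge crosses
      have hd : (a - c : ℤ).natAbs ≤ 2 * k := by
        have := h.2
        rwa [pathZ_dist] at this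
      have h1 : (netGraph pathZ k N).dist o a ≤ 1 := by
        have : pathZ.dist (o : ℤ) a ≤ 2 * k := by rw [pathZ_dist]; omega
        rcases net_adj_or_eq pathZ_connected o a this with h | h
        · rw [h]; simp
        · rw [SimpleGraph.dist_eq_one_iff_adj.2 h]
      have h2 : (netGraph pathZ k N).dist o c ≤ 1 := by
        have : pathZ.dist (o : ℤ) c ≤ 2 * k := by rw [pathZ_dist]; omega
        rcases net_adj_or_eq pathZ_connected o c this with h | h
        · rw [h]; simp
        · rw [SimpleGraph.dist_eq_one_iff_adj.2 h]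
      have h3 := SimpleGraph.dist_le p
      have t := hconn.dist_triangle (u := o) (v := c) (w := b)
      omega

theorem exists_rough (hN : IsNet pathZ k N) (hk : 1 ≤ k) :
    ∃ f : ℤ → N, (∀ x y : ℤ, (netGraph pathZ k N).dist (f x) (f y) ≤ pathZ.dist x y ∧
      pathZ.dist x y ≤ (netGraph pathZ k N).dist (f x) (f y) + 1) ∧
      ∀ y : N, ∃ x : ℤ, (netGraph pathZ k N).dist (f x) y ≤ 1 := by
  have hconn := netGraph_connected pathZ_connected hN hk
  obtain ⟨o⟩ := hconn.nonempty
  obtain ⟨r, hr0, hradj, hrpos, hrdist, hrcov⟩ := exists_ray hN hk 1 (Or.inl rfl) o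
  obtain ⟨l, hl0, hladj, hlpos, hldist, hlcov⟩ := exists_ray hN hk (-1) (Or.inr rfl) o
  set H := netGraph pathZ k N with hH
  -- distances along a ray
  have hray : ∀ s : ℕ → N, s 0 = o → (∀ n, H.Adj (s n) (s (n + 1))) → (∀ n, H.dist o (s n) = n) →
      ∀ m d, H.dist (s m) (s (m + d)) = d := by
    intro s _ hsadj hsdist m d
    apply le_antisymm
    · induction d with
      | zero => simp
      | succ d ih =>
        have t := hconn.dist_triangle (u := s m) (v := s (m + d)) (w := s (m + (d + 1)))
        rw [← add_assoc] at t ⊢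
        rw [SimpleGraph.dist_eq_one_iff_adj.2 (hsadj (m + d))] at t
        omega
    · have t := hconn.dist_triangle (u := o) (v := s m) (w := s (m + d))
      rw [hsdist, hsdist] at t
      omega
  refine ⟨fun x => if 0 ≤ x then r x.toNat else l (-x).toNat, ?_, ?_⟩
  · -- a normal form for the pair
    have hmain : ∀ x y : ℤ, x ≤ y →
        H.dist (if 0 ≤ x then r x.toNat else l (-x).toNat)
          (if 0 ≤ y then r y.toNat else l (-y).toNat) ≤ (y - x).toNat ∧
        (y - x).toNat ≤ H.dist (if 0 ≤ x then r x.toNat else l (-x).toNat)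
          (if 0 ≤ y then r y.toNat else l (-y).toNat) + 1 := by
      intro x y hxy
      by_cases hx : 0 ≤ x
      · have hy : 0 ≤ y := le_trans hx hxy
        simp only [hx, hy, if_true]
        have h := hray r hr0 hradj hrdist x.toNat (y - x).toNat
        rw [show x.toNat + (y - x).toNat = y.toNat by omega] at h
        omega
      · by_cases hy : 0 ≤ y
        · simp only [hx, hy, if_true, if_false]
          have t := hconn.dist_triangle (u := l (-x).toNat) (v := o) (w := r y.toNat)
          rw [hrdist, SimpleGraph.dist_comm (u := l (-x).toNat) (v := o), hldist] at t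
          have h1 : H.dist (l (-x).toNat) (r y.toNat) ≤ (y - x).toNat := by
            omega
          obtain ⟨p, hp⟩ := hconn.exists_walk_length_eq_dist (l (-x).toNat) (r y.toNat)
          have h2 := cross_aux hN hk o _ _ p (by have := hlpos (-x).toNat; omega)
            (by have := hrpos y.toNat; omega)
          rw [hp] at h2
          change H.dist o (l (-x).toNat) + H.dist o (r y.toNat) ≤ _ at h2
          rw [hldist, hrdist] at h2
          exact ⟨h1, by omega⟩
        · simp only [hx, hy, if_false]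
          have h := hray l hl0 hladj hldist (-y).toNat (y - x).toNat
          rw [show (-y).toNat + (y - x).toNat = (-x).toNat by omega, SimpleGraph.dist_comm] at h
          omega
    intro x y
    rw [pathZ_dist]
    rcases le_total x y with h | h
    · have := hmain x y h
      rw [show (x - y).natAbs = (y - x).toNat by omega]
      exact this
    · have := hmain y x h
      rw [SimpleGraph.dist_comm] at this
      rw [show (x - y).natAbs = (x - y).toNat by omega]
      exact this
  · intro y
    rcases le_total (o : ℤ) y with h | h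
    · obtain ⟨n, hn⟩ := hrcov y (by omega)
      refine ⟨(n : ℤ), ?_⟩
      simpa using hn
    · obtain ⟨n, hn⟩ := hlcov y (by omega)
      rcases Nat.eq_zero_or_pos n with h0 | h0
      · refine ⟨0, ?_⟩
        rw [h0, hl0] at hn
        simpa [hr0] using hn
      · refine ⟨-(n : ℤ), ?_⟩
        have : ¬ (0 : ℤ) ≤ -(n : ℤ) := by omega
        simp only [this, if_false, neg_neg, Int.toNat_natCast]
        exact hn

theorem rough_of_near (hN : IsNet pathZ k N) (hk : 1 ≤ k) (C : ℝ) (hC : 1 < C) :
    ∃ f : ℤ → N, IsRoughIsometry pathZ (netGraph pathZ k N) C f := by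
  obtain ⟨f, hf1, hf2⟩ := exists_rough hN hk
  refine ⟨f, fun x y => ?_, fun y => ?_⟩
  · obtain ⟨h1, h2⟩ := hf1 x y
    have h1' : ((netGraph pathZ k N).dist (f x) (f y) : ℝ) ≤ pathZ.dist x y := by exact_mod_cast h1
    have h2' : (pathZ.dist x y : ℝ) ≤ (netGraph pathZ k N).dist (f x) (f y) + 1 := by
      exact_mod_cast h2
    have h0 : (0 : ℝ) ≤ (netGraph pathZ k N).dist (f x) (f y) := Nat.cast_nonneg _
    have hCi : C⁻¹ ≤ 1 := inv_le_one_of_one_le₀ hC.le
    constructor
    · nlinarith
    · nlinarith
  · obtain ⟨x, hx⟩ := hf2 y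
    refine ⟨x, lt_of_le_of_lt ?_ hC⟩
    exact_mod_cast hx

theorem one_le_of_rough (C : ℝ) (hC0 : 0 < C) (f : ℤ → N)
    (hf : IsRoughIsometry pathZ (netGraph pathZ k N) C f) : 1 ≤ C := by
  by_contra hlt
  push Not at hlt
  have hgap : 0 < C⁻¹ - C := by
    have : 1 < C⁻¹ := (one_lt_inv₀ hC0).2 hlt
    linarith
  obtain ⟨M, hM⟩ := exists_nat_gt (2 * C ^ 2 / (C⁻¹ - C) + C)
  obtain ⟨h1, h2⟩ := hf.1 0 M
  have hd : (pathZ.dist 0 (M : ℤ) : ℝ) = M := by
    rw [pathZ_dist]; simp
  rw [hd] at h1 h2
  set d : ℝ := ((netGraph pathZ k N).dist (f 0) (f M) : ℝ) with hdd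
  have h3 : (C⁻¹ - C) * d ≤ 2 * C := by linarith
  have h4 : 2 * C ^ 2 / (C⁻¹ - C) < C * d := by linarith
  rw [div_lt_iff₀ hgap] at h4
  have h5 : C * ((C⁻¹ - C) * d) ≤ C * (2 * C) := mul_le_mul_of_nonneg_left h3 hC0.le
  nlinarith

theorem scaleConst_pathZ (hN : IsNet pathZ k N) (hk : 1 ≤ k) : scaleConst pathZ k N = 1 := by
  apply le_antisymm
  · apply le_of_forall_gt
    intro c hc
    obtain ⟨d, hd1, hd2⟩ := exists_between hc
    have hdtop : d ≠ ⊤ := ne_top_of_lt hd2
    have hd : 1 < d.toReal := by
      rw [← ENNReal.toReal_one]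
      exact (ENNReal.toReal_lt_toReal ENNReal.one_ne_top hdtop).2 hd1
    obtain ⟨f, hf⟩ := rough_of_near hN hk d.toReal hd
    have := scaleConst_le (by linarith) hf
    rw [ENNReal.ofReal_toReal hdtop] at this
    exact lt_of_le_of_lt this hd2
  · apply le_sInf
    rintro c ⟨C, hC, rfl, f, hf⟩
    rw [← ENNReal.ofReal_one]
    exact ENNReal.ofReal_le_ofReal (one_le_of_rough C hC f hf)

end

theorem pathZ_sub : SubScaleInvariant pathZ := by
  intro N hN
  apply tendsto_const_nhds.congr'
  filter_upwards [eventually_ge_atTop 1] with k hk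
  exact (scaleConst_pathZ (hN k hk) hk).symm

end Pool.Agent.H385R3.SubScale
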