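import Pool.Agent.H385R3.SubScale

open Filter Topology
open scoped ENNReal

namespace Pool.Agent.H385R3.SubScale

variable {V : Type*}

/-- closed balls with natural radius -/
def nball (G : SimpleGraph V) (v : V) (n : ℕ) : Set V := {u | G.dist v u ≤ n}

theorem geodesic {G : SimpleGraph V} (hG : G.Connected) (v p : V) :
    ∃ γ : ℕ → V, γ 0 = v ∧ γ (G.dist v p) = p ∧
      ∀ i j, i ≤ j → j ≤ G.dist v p → G.dist (γ i) (γ j) = j - i := by
  obtain ⟨w, hw⟩ := hG.exists_walk_length_eq_dist v p
  have hupper : ∀ i d, G.dist (w.getVert i) (w.getVert (i + d)) ≤ d := by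
    intro i d
    induction d with
    | zero => simp
    | succ d ih =>
      have t := hG.dist_triangle (u := w.getVert i) (v := w.getVert (i + d)) (w := w.getVert (i + (d + 1)))
      have h1 : G.dist (w.getVert (i + d)) (w.getVert (i + (d + 1))) ≤ 1 := by
        by_cases hlt : i + d < w.length
        · have := w.adj_getVert_succ hlt
          rw [← add_assoc, SimpleGraph.dist_eq_one_iff_adj.2 this]
        · push Not at hlt
          rw [w.getVert_of_length_le hlt, w.getVert_of_length_le (by omega)]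
          simp
      omega
  refine ⟨w.getVert, w.getVert_zero, ?_, ?_⟩
  · rw [← hw]; exact w.getVert_length
  · intro i j hij hj
    have h1 := hupper i (j - i)
    rw [show i + (j - i) = j by omega] at h1
    have h2 := hupper 0 i
    rw [zero_add, w.getVert_zero] at h2
    have h3 := hupper j (G.dist v p - j)
    rw [show j + (G.dist v p - j) = G.dist v p by omega, ← hw, w.getVert_length, hw] at h3
    have t1 := hG.dist_triangle (u := v) (v := w.getVert i) (w := p)
    have t2 := hG.dist_triangle (u := w.getVert i) (v := w.getVert j) (w := p)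
    omega

theorem nball_finite {G : SimpleGraph V} (hG : G.Connected) (hf : LocFinite G) (v : V) (n : ℕ) :
    (nball G v n).Finite := by
  induction n with
  | zero =>
    apply Set.Finite.subset (Set.finite_singleton v)
    intro u hu
    have : G.dist v u = 0 := Nat.le_zero.1 hu
    rw [hG.dist_eq_zero_iff] at this
    exact this.symm
  | succ n ih =>
    have hfin : (nball G v n ∪ ⋃ w ∈ nball G v n, G.neighborSet w).Finite :=
      ih.union (ih.biUnion fun w _ => hf w)
    apply hfin.subset
    intro u hu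
    by_cases h : G.dist v u ≤ n
    · exact Or.inl h
    · right
      have hd : G.dist v u = n + 1 := le_antisymm hu (by omega)
      obtain ⟨γ, h0, h1, h2⟩ := geodesic hG v u
      rw [hd] at h1 h2
      simp only [Set.mem_iUnion]
      refine ⟨γ n, ?_, ?_⟩
      · have := h2 0 n (by omega) (by omega)
        rw [h0] at this
        show G.dist v (γ n) ≤ n
        omega
      · have := h2 n (n + 1) (by omega) (by omega)
        rw [h1] at this
        exact SimpleGraph.dist_eq_one_iff_adj.1 (by omega)

theorem dist_iso {G : SimpleGraph V} (hG : G.Connected) (φ : G ≃g G) (a b : V) :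
    G.dist (φ a) (φ b) = G.dist a b := by
  have key : ∀ (ψ : G ≃g G) (a b : V), G.dist (ψ a) (ψ b) ≤ G.dist a b := by
    intro ψ a b
    obtain ⟨w, hw⟩ := hG.exists_walk_length_eq_dist a b
    rw [← hw, ← SimpleGraph.Walk.length_map ψ.toHom w]
    exact SimpleGraph.dist_le _
  apply le_antisymm (key φ a b)
  have := key φ.symm (φ a) (φ b)
  simpa using this

theorem ncard_nball {G : SimpleGraph V} (hG : G.Connected) (ht : VertexTransitive G) (u v : V)
    (n : ℕ) : (nball G u n).ncard = (nball G v n).ncard := by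
  obtain ⟨φ, hφ⟩ := ht u v
  have himg : φ '' nball G u n = nball G v n := by
    ext x
    constructor
    · rintro ⟨y, hy, rfl⟩
      show G.dist v (φ y) ≤ n
      rw [← hφ, dist_iso hG]
      exact hy
    · intro hx
      refine ⟨φ.symm x, ?_, by simp⟩
      show G.dist u (φ.symm x) ≤ n
      rw [← dist_iso hG φ, hφ]
      have : φ (φ.symm x) = x := by simp
      rw [this]
      exact hx
  rw [← himg, Set.ncard_image_of_injective _ φ.injective]

/-- A greedy selection: if the ball of radius `K + k` is much larger than the ball of radius `K`,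
one can pick many points in the annulus each of which avoids the `K`-balls about the marked points
of the previously chosen ones. -/
theorem greedy {G : SimpleGraph V} (hG : G.Connected) (hf : LocFinite G) (ht : VertexTransitive G)
    (v : V) (K k m : ℕ) (c : V → ℕ → V) (Q : ℕ)
    (hbig : (1 + Q * m) * (nball G v K).ncard < (nball G v (K + k)).ncard) :
    ∀ q ≤ Q, ∃ p : ℕ → V, ∀ a < q, G.dist v (p a) ≤ K + k ∧ K < G.dist v (p a) ∧
      ∀ b < a, ∀ j < m, K < G.dist (p a) (c (p b) j) := by
  intro q
  induction q with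
  | zero => intro _; exact ⟨fun _ => v, fun a ha => absurd ha (Nat.not_lt_zero a)⟩
  | succ q ih =>
    intro hq
    obtain ⟨p, hp⟩ := ih (by omega)
    set bad : Set V := nball G v K ∪ ⋃ b ∈ Finset.range q, ⋃ j ∈ Finset.range m,
      nball G (c (p b) j) K with hbad
    have hbadcard : bad.ncard ≤ (1 + q * m) * (nball G v K).ncard := by
      have h1 : (⋃ b ∈ Finset.range q, ⋃ j ∈ Finset.range m, nball G (c (p b) j) K).ncard
          ≤ q * (m * (nball G v K).ncard) := by
        calc (⋃ b ∈ Finset.range q, ⋃ j ∈ Finset.range m, nball G (c (p b) j) K).ncard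
            ≤ ∑ b ∈ Finset.range q, (⋃ j ∈ Finset.range m, nball G (c (p b) j) K).ncard :=
              Finset.set_ncard_biUnion_le _ _
          _ ≤ ∑ b ∈ Finset.range q, m * (nball G v K).ncard := by
              apply Finset.sum_le_sum
              intro b _
              calc (⋃ j ∈ Finset.range m, nball G (c (p b) j) K).ncard
                  ≤ ∑ j ∈ Finset.range m, (nball G (c (p b) j) K).ncard :=
                    Finset.set_ncard_biUnion_le _ _
                _ = ∑ j ∈ Finset.range m, (nball G v K).ncard := by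
                    apply Finset.sum_congr rfl
                    intro j _
                    exact ncard_nball hG ht _ _ _
                _ = m * (nball G v K).ncard := by simp
          _ = q * (m * (nball G v K).ncard) := by simp
      calc bad.ncard ≤ (nball G v K).ncard + _ := Set.ncard_union_le _ _
        _ ≤ (nball G v K).ncard + q * (m * (nball G v K).ncard) := by gcongr
        _ = (1 + q * m) * (nball G v K).ncard := by ring
    have hlt : bad.ncard < (nball G v (K + k)).ncard := by
      refine lt_of_le_of_lt hbadcard (lt_of_le_of_lt ?_ hbig)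
      gcongr
      omega
    obtain ⟨x, hx, hxbad⟩ := Set.exists_mem_notMem_of_ncard_lt_ncard hlt (by
      apply Set.Finite.union (nball_finite hG hf _ _)
      exact (Finset.range q).finite_toSet.biUnion fun b _ =>
        (Finset.range m).finite_toSet.biUnion fun j _ => nball_finite hG hf _ _)
    refine ⟨fun a => if a < q then p a else x, ?_⟩
    intro a ha
    by_cases haq : a < q
    · simp only [haq, if_true]
      obtain ⟨h1, h2, h3⟩ := hp a haq
      refine ⟨h1, h2, fun b hb j hj => ?_⟩
      have : b < q := by omega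
      simp only [this, if_true]
      exact h3 b hb j hj
    · have : a = q := by omega
      subst this
      simp only [lt_irrefl, if_false]
      refine ⟨hx, ?_, ?_⟩
      · by_contra hcon
        exact hxbad (Or.inl (by push Not at hcon; exact hcon))
      · intro b hb j hj
        simp only [hb, if_true]
        by_contra hcon
        push Not at hcon
        apply hxbad
        right
        simp only [Set.mem_iUnion, Finset.mem_range]
        refine ⟨b, hb, j, hj, ?_⟩
        show G.dist (c (p b) j) x ≤ K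
        rw [SimpleGraph.dist_comm]
        exact hcon

/-- positions of the marked points on the geodesic from `v` to `p`, `t = d(v,p)` -/
def pos (C k t j : ℕ) : ℕ :=
  if j < 2 * C - 1 then 2 * k * (j + 1) else if j = 2 * C - 1 then (4 * C - 1) * k else t

theorem pos_facts {C k t : ℕ} (hC : 1 ≤ C) (hk : 1 ≤ k) (h1 : 4 * C * k < t)
    (h2 : t ≤ 4 * C * k + k) :
    (∀ j < 2 * C + 1, 2 * k ≤ pos C k t j ∧ pos C k t j ≤ t ∧ t ≤ pos C k t j + (4 * C * k - k)) ∧
    (∀ j, j + 1 < 2 * C + 1 → pos C k t j + k ≤ pos C k t (j + 1) ∧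
      pos C k t (j + 1) ≤ pos C k t j + 2 * k) ∧ pos C k t 0 = 2 * k ∧ pos C k t (2 * C) = t := by
  obtain ⟨D, rfl⟩ : ∃ D, C = D + 1 := ⟨C - 1, by omega⟩
  have e1 : 2 * (D + 1) - 1 = 2 * D + 1 := by omega
  have e2 : 4 * (D + 1) - 1 = 4 * D + 3 := by omega
  unfold pos
  rw [e1, e2]
  have e3 : 4 * (D + 1) * k - k = 4 * D * k + 3 * k := by
    have : 4 * (D + 1) * k = 4 * D * k + 3 * k + k := by ring
    omega
  rw [e3]
  have hex : 4 * (D + 1) * k = 4 * (D * k) + 4 * k := by ring
  have hex2 : (4 * D + 3) * k = 4 * (D * k) + 3 * k := by ring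
  have hex3 : 4 * D * k = 4 * (D * k) := by ring
  rw [hex] at h1 h2
  rw [hex2, hex3]
  refine ⟨?_, ?_, ?_, ?_⟩
  · intro j hj
    by_cases ha : j < 2 * D + 1
    · simp only [ha, if_true]
      have hb : 2 * k * (j + 1) = 2 * (k * j) + 2 * k := by ring
      rw [hb]
      have hc : k * j ≤ 2 * (D * k) := by
        have : j ≤ 2 * D := by omega
        calc k * j ≤ k * (2 * D) := Nat.mul_le_mul_left k this
          _ = 2 * (D * k) := by ring
      refine ⟨by omega, by omega, by omega⟩
    · simp only [ha, if_false]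
      by_cases hb : j = 2 * D + 1
      · simp only [hb, if_true]
        refine ⟨by omega, by omega, by omega⟩
      · simp only [hb, if_false]
        refine ⟨by omega, by omega, by omega⟩
  · intro j hj
    by_cases ha : j < 2 * D
    · have ha1 : j < 2 * D + 1 := by omega
      have ha2 : j + 1 < 2 * D + 1 := by omega
      simp only [ha1, ha2, if_true]
      have hb : 2 * k * (j + 1) = 2 * (k * j) + 2 * k := by ring
      have hb' : 2 * k * (j + 1 + 1) = 2 * (k * j) + 4 * k := by ring
      rw [hb, hb']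
      exact ⟨by omega, by omega⟩
    · by_cases hb : j = 2 * D
      · subst hb
        simp only [lt_add_iff_pos_right, zero_lt_one, if_true, lt_irrefl, if_false]
        have hb : 2 * k * (2 * D + 1) = 4 * (D * k) + 2 * k := by ring
        rw [hb]
        exact ⟨by omega, by omega⟩
      · have hj' : j = 2 * D + 1 := by omega
        subst hj'
        simp only [lt_irrefl, if_false, if_true]
        have g1 : ¬ (2 * D + 1 + 1 < 2 * D + 1) := by omega
        have g2 : ¬ (2 * D + 1 + 1 = 2 * D + 1) := by omega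
        simp only [g1, g2, if_false]
        exact ⟨by omega, by omega⟩
  · simp
  · have g1 : ¬ (2 * (D + 1) < 2 * D + 1) := by omega
    have g2 : ¬ (2 * (D + 1) = 2 * D + 1) := by omega
    simp only [g1, g2, if_false]

theorem pos_mono {C k t : ℕ} (hC : 1 ≤ C) (hk : 1 ≤ k) (h1 : 4 * C * k < t)
    (h2 : t ≤ 4 * C * k + k) (i j : ℕ) (hij : i < j) (hj : j < 2 * C + 1) :
    pos C k t i + k ≤ pos C k t j := by
  induction j with
  | zero => omega
  | succ j ih =>
    have hf := (pos_facts hC hk h1 h2).2.1 j hj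
    rcases Nat.lt_or_ge i j with h | h
    · have := ih h (by omega)
      omega
    · have : i = j := by omega
      subst this
      exact hf.1

theorem no_rough {G : SimpleGraph V} (hG : G.Connected) (hf : LocFinite G)
    (ht : VertexTransitive G) (v : V) (C k : ℕ) (hC : 1 ≤ C) (hk : 1 ≤ k)
    (hbig : (1 + ((nball G v (6 * C ^ 2 + 3 * C)).ncard + 1) * (2 * C + 1)) *
      (nball G v (4 * C * k)).ncard < (nball G v (4 * C * k + k)).ncard) :
    ∃ N, IsNet G k N ∧ ¬ ∃ f : V → N, IsRoughIsometry G (netGraph G k N) (C : ℝ) f := by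
  classical
  set Q := (nball G v (6 * C ^ 2 + 3 * C)).ncard + 1 with hQ
  choose γ hγ0 hγ1 hγ using fun p => geodesic hG v p
  set c : V → ℕ → V := fun p j => γ p (pos C k (G.dist v p) j) with hc
  obtain ⟨p, hp⟩ := greedy hG hf ht v (4 * C * k) k (2 * C + 1) c Q hbig Q le_rfl
  have hann : ∀ a < Q, 4 * C * k < G.dist v (p a) ∧ G.dist v (p a) ≤ 4 * C * k + k :=
    fun a ha => ⟨(hp a ha).2.1, (hp a ha).1⟩
  -- facts on one chain
  have hvc : ∀ a < Q, ∀ j < 2 * C + 1, G.dist v (c (p a) j) = pos C k (G.dist v (p a)) j := by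
    intro a ha j hj
    obtain ⟨h1, h2⟩ := hann a ha
    have := hγ (p a) 0 (pos C k (G.dist v (p a)) j) (Nat.zero_le _)
      ((pos_facts hC hk h1 h2).1 j hj).2.1
    rw [hγ0] at this
    simpa [hc] using this
  have hcp : ∀ a < Q, ∀ j < 2 * C + 1, G.dist (c (p a) j) (p a) + k ≤ 4 * C * k := by
    intro a ha j hj
    obtain ⟨h1, h2⟩ := hann a ha
    have hpf := (pos_facts hC hk h1 h2).1 j hj
    have := hγ (p a) (pos C k (G.dist v (p a)) j) (G.dist v (p a)) hpf.2.1 le_rfl
    rw [hγ1] at this
    have h3 : k ≤ 4 * C * k := by nlinarith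
    simp only [hc]
    omega
  have hcc : ∀ a < Q, ∀ i j, i < j → j < 2 * C + 1 → k ≤ G.dist (c (p a) i) (c (p a) j) := by
    intro a ha i j hij hj
    obtain ⟨h1, h2⟩ := hann a ha
    have hm := pos_mono hC hk h1 h2 i j hij hj
    have := hγ (p a) (pos C k (G.dist v (p a)) i) (pos C k (G.dist v (p a)) j) (by omega)
      ((pos_facts hC hk h1 h2).1 j hj).2.1
    simp only [hc]
    omega
  have hstep : ∀ a < Q, ∀ j, j + 1 < 2 * C + 1 → G.dist (c (p a) j) (c (p a) (j + 1)) ≤ 2 * k := by
    intro a ha j hj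
    obtain ⟨h1, h2⟩ := hann a ha
    have hm := (pos_facts hC hk h1 h2).2.1 j hj
    have := hγ (p a) (pos C k (G.dist v (p a)) j) (pos C k (G.dist v (p a)) (j + 1)) (by omega)
      ((pos_facts hC hk h1 h2).1 (j + 1) hj).2.1
    simp only [hc]
    omega
  have hlast : ∀ a < Q, c (p a) (2 * C) = p a := by
    intro a ha
    obtain ⟨h1, h2⟩ := hann a ha
    simp only [hc, (pos_facts hC hk h1 h2).2.2.2, hγ1]
  -- different chains
  have hdiff : ∀ a < Q, ∀ b < a, ∀ i < 2 * C + 1, ∀ j < 2 * C + 1,
      k ≤ G.dist (c (p a) i) (c (p b) j) := by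
    intro a ha b hb i hi j hj
    have h1 := (hp a ha).2.2 b hb j hj
    have h2 := hcp a ha i hi
    have t := hG.dist_triangle (u := p a) (v := c (p a) i) (w := c (p b) j)
    rw [SimpleGraph.dist_comm (u := p a) (v := c (p a) i)] at t
    omega
  set F : Set V := {v} ∪ {x | ∃ a < Q, ∃ j < 2 * C + 1, x = c (p a) j} with hF
  have hvsep : ∀ a < Q, ∀ j < 2 * C + 1, k ≤ G.dist v (c (p a) j) := by
    intro a ha j hj
    rw [hvc a ha j hj]
    obtain ⟨h1, h2⟩ := hann a ha
    have := ((pos_facts hC hk h1 h2).1 j hj).1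
    omega
  have hFsep : Separated G k F := by
    rintro x hx y hy hxy
    rcases hx with hx | ⟨a, ha, i, hi, rfl⟩
    · rcases hy with hy | ⟨b, hb, j, hj, rfl⟩
      · exact absurd (by rw [Set.mem_singleton_iff.1 hx, Set.mem_singleton_iff.1 hy]) hxy
      · rw [Set.mem_singleton_iff.1 hx]; exact hvsep b hb j hj
    · rcases hy with hy | ⟨b, hb, j, hj, rfl⟩
      · rw [Set.mem_singleton_iff.1 hy, SimpleGraph.dist_comm]; exact hvsep a ha i hi
      · rcases lt_trichotomy a b with h | h | h
        · rw [SimpleGraph.dist_comm]; exact hdiff b hb a h j hj i hi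
        · subst h
          rcases lt_trichotomy i j with h' | h' | h'
          · exact hcc a ha i j h' hj
          · subst h'; exact absurd rfl hxy
          · rw [SimpleGraph.dist_comm]; exact hcc a ha j i h' hi
        · exact hdiff a ha b h i hi j hj
  obtain ⟨N, hFN, hN⟩ := exists_net hFsep
  refine ⟨N, hN, ?_⟩
  rintro ⟨f, hf1, hf2⟩
  have hHc := netGraph_connected hG hN hk
  set H := netGraph G k N with hH
  have hvN : v ∈ N := hFN (Or.inl rfl)
  have hcN : ∀ a < Q, ∀ j < 2 * C + 1, c (p a) j ∈ N := fun a ha j hj =>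
    hFN (Or.inr ⟨a, ha, j, hj, rfl⟩)
  have hpN : ∀ a < Q, p a ∈ N := fun a ha => by
    have := hcN a ha (2 * C) (by omega)
    rwa [hlast a ha] at this
  -- distance in the net graph from v
  have hHv : ∀ a (ha : a < Q), ∀ j (hj : j < 2 * C + 1),
      H.dist ⟨v, hvN⟩ ⟨c (p a) j, hcN a ha j hj⟩ ≤ j + 1 := by
    intro a ha j
    induction j with
    | zero =>
      intro hj
      obtain ⟨h1, h2⟩ := hann a ha
      have h3 := hvc a ha 0 hj
      rw [(pos_facts hC hk h1 h2).2.2.1] at h3
      rcases net_adj_or_eq hG (N := N) (k := k) ⟨v, hvN⟩ ⟨c (p a) 0, hcN a ha 0 hj⟩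
        (le_of_eq h3) with h | h
      · rw [← h]; simp
      · rw [SimpleGraph.dist_eq_one_iff_adj.2 h]
    | succ j ih =>
      intro hj
      have h1 := ih (by omega)
      have t := hHc.dist_triangle (u := ⟨v, hvN⟩) (v := ⟨c (p a) j, hcN a ha j (by omega)⟩)
        (w := ⟨c (p a) (j + 1), hcN a ha (j + 1) hj⟩)
      have h2 : H.dist ⟨c (p a) j, hcN a ha j (by omega)⟩
          ⟨c (p a) (j + 1), hcN a ha (j + 1) hj⟩ ≤ 1 := by
        rcases net_adj_or_eq hG (N := N) (k := k) ⟨c (p a) j, hcN a ha j (by omega)⟩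
          ⟨c (p a) (j + 1), hcN a ha (j + 1) hj⟩ (hstep a ha j hj) with h | h
        · rw [← h]; simp
        · rw [SimpleGraph.dist_eq_one_iff_adj.2 h]
      omega
  have hHp : ∀ a (ha : a < Q), H.dist ⟨v, hvN⟩ ⟨p a, hpN a ha⟩ ≤ 2 * C + 1 := by
    intro a ha
    have := hHv a ha (2 * C) (by omega)
    have e : (⟨c (p a) (2 * C), hcN a ha (2 * C) (by omega)⟩ : N) = ⟨p a, hpN a ha⟩ :=
      Subtype.ext (hlast a ha)
    rwa [e] at this
  have hHpp : ∀ a (ha : a < Q), ∀ b (hb : b < Q), b < a →
      2 * C ≤ H.dist ⟨p a, hpN a ha⟩ ⟨p b, hpN b hb⟩ := by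
    intro a ha b hb hba
    have h1 := (hp a ha).2.2 b hba (2 * C) (by omega)
    rw [hlast b hb] at h1
    have h2 := dist_le_netDist hG hN hk ⟨p a, hpN a ha⟩ ⟨p b, hpN b hb⟩
    have h3 : 4 * C * k < 2 * k * H.dist ⟨p a, hpN a ha⟩ ⟨p b, hpN b hb⟩ :=
      lt_of_lt_of_le h1 h2
    by_contra hcon
    push Not at hcon
    nlinarith
  -- choose preimages
  have hx : ∀ a : ℕ, ∃ x : V, ∀ ha : a < Q, (H.dist (f x) ⟨p a, hpN a ha⟩ : ℝ) < C := by
    intro a
    by_cases ha : a < Q
    · obtain ⟨x, hx⟩ := hf2 ⟨p a, hpN a ha⟩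
      exact ⟨x, fun _ => hx⟩
    · exact ⟨v, fun h => absurd h ha⟩
  choose x hx using hx
  have hinj : ∀ a < Q, ∀ b < a, x a ≠ x b := by
    intro a ha b hb heq
    have hbQ : b < Q := by omega
    have h1 := hx a ha
    have h2 := hx b hbQ
    rw [← heq] at h2
    have t := hHc.dist_triangle (u := ⟨p a, hpN a ha⟩) (v := f (x a)) (w := ⟨p b, hpN b hbQ⟩)
    rw [SimpleGraph.dist_comm (u := (⟨p a, hpN a ha⟩ : N)) (v := f (x a))] at t
    have h3 := hHpp a ha b hbQ hb
    have h1' : H.dist (f (x a)) ⟨p a, hpN a ha⟩ < C := by exact_mod_cast h1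
    have h2' : H.dist (f (x a)) ⟨p b, hpN b hbQ⟩ < C := by exact_mod_cast h2
    omega
  have hQpos : 0 < Q := by omega
  have hclose : ∀ a < Q, G.dist (x 0) (x a) ≤ 6 * C ^ 2 + 3 * C := by
    intro a ha
    have h1 : H.dist (f (x 0)) ⟨p 0, hpN 0 hQpos⟩ < C := by exact_mod_cast hx 0 hQpos
    have h2 : H.dist (f (x a)) ⟨p a, hpN a ha⟩ < C := by exact_mod_cast hx a ha
    have t1 := hHc.dist_triangle (u := f (x 0)) (v := ⟨p 0, hpN 0 hQpos⟩) (w := ⟨v, hvN⟩)
    have t2 := hHc.dist_triangle (u := ⟨v, hvN⟩) (v := ⟨p a, hpN a ha⟩) (w := f (x a))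
    have t3 := hHc.dist_triangle (u := f (x 0)) (v := ⟨v, hvN⟩) (w := f (x a))
    have h3 := hHp 0 hQpos
    have h4 := hHp a ha
    rw [SimpleGraph.dist_comm] at h3
    rw [SimpleGraph.dist_comm] at h2
    have h5 : H.dist (f (x 0)) (f (x a)) ≤ 6 * C + 2 := by omega
    have h6 := (hf1 (x 0) (x a)).2
    have h7 : (G.dist (x 0) (x a) : ℝ) ≤ C * (6 * C + 2 : ℕ) + C := by
      refine h6.trans ?_
      have : (H.dist (f (x 0)) (f (x a)) : ℝ) ≤ ((6 * C + 2 : ℕ) : ℝ) := by exact_mod_cast h5
      gcongr
    have h8 : G.dist (x 0) (x a) ≤ C * (6 * C + 2) + C := by exact_mod_cast h7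
    calc G.dist (x 0) (x a) ≤ C * (6 * C + 2) + C := h8
      _ = 6 * C ^ 2 + 3 * C := by ring
  have hcard : Q ≤ (nball G (x 0) (6 * C ^ 2 + 3 * C)).ncard := by
    have hsub : (Finset.image x (Finset.range Q) : Set V) ⊆ nball G (x 0) (6 * C ^ 2 + 3 * C) := by
      intro y hy
      simp only [Finset.coe_image, Finset.coe_range, Set.mem_image, Set.mem_Iio] at hy
      obtain ⟨a, ha, rfl⟩ := hy
      exact hclose a ha
    have h1 := Set.ncard_le_ncard hsub (nball_finite hG hf _ _)
    rw [Set.ncard_coe_finset, Finset.card_image_of_injOn, Finset.card_range] at h1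
    · exact h1
    · intro a ha b hb hab
      simp only [Finset.coe_range, Set.mem_Iio] at ha hb
      rcases lt_trichotomy a b with h | h | h
      · exact absurd hab.symm (hinj b hb a h)
      · exact h
      · exact absurd hab (hinj a ha b h)
  rw [ncard_nball hG ht (x 0) v] at hcard
  omega

end Pool.Agent.H385R3.SubScale
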