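import Pool.Agent.H385R3.SubScaleB

open Filter Topology
open scoped ENNReal

namespace Pool.Agent.H385R3.SubScale

variable {V : Type*}

theorem nball_mono {G : SimpleGraph V} (hG : G.Connected) (hf : LocFinite G) (v : V) {m n : ℕ}
    (h : m ≤ n) : (nball G v m).ncard ≤ (nball G v n).ncard :=
  Set.ncard_le_ncard (fun _ hu => le_trans hu h) (nball_finite hG hf v n)

theorem nball_pos {G : SimpleGraph V} (hG : G.Connected) (hf : LocFinite G) (v : V) (n : ℕ) :
    1 ≤ (nball G v n).ncard := by
  have : (nball G v n).Nonempty := ⟨v, by simp [nball]⟩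
  exact (Set.ncard_pos (nball_finite hG hf v n)).2 this

theorem growth {G : SimpleGraph V} (hG : G.Connected) (hf : LocFinite G)
    (ht : VertexTransitive G) (v : V) (C k0 A : ℕ) (hC : 1 ≤ C) (hA : 1 ≤ A)
    (h : ∀ k, k0 ≤ k → 1 ≤ k → (nball G v (4 * C * k + k)).ncard ≤ A * (nball G v (4 * C * k)).ncard) :
    VolumeDoubling G := by
  -- one step
  have step : ∀ n, 8 * C * (4 * C + 1) ≤ n → 4 * C * (k0 + 1) ≤ n →
      (nball G v (n + n / (8 * C))).ncard ≤ A * (nball G v n).ncard := by
    intro n hn1 hn2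
    set k := n / (4 * C) with hk
    have h4C : 0 < 4 * C := by omega
    have hk1 : k0 + 1 ≤ k := by
      rw [hk, Nat.le_div_iff_mul_le h4C]
      linarith
    have hkn : 4 * C * k ≤ n := Nat.mul_div_le n (4 * C)
    have hnk : n < 4 * C * k + 4 * C := by
      have := Nat.lt_mul_div_succ n h4C
      calc n < 4 * C * (n / (4 * C) + 1) := this
        _ = 4 * C * k + 4 * C := by rw [hk]; ring
    have h8 : n / (8 * C) + 4 * C ≤ k := by
      have e1 : 8 * C * (n / (8 * C)) ≤ n := Nat.mul_div_le n (8 * C)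
      rw [hk, Nat.le_div_iff_mul_le h4C]
      have e2 : 4 * C + 1 ≤ n / (8 * C) := by
        rw [Nat.le_div_iff_mul_le (by omega)]
        linarith
      nlinarith
    calc (nball G v (n + n / (8 * C))).ncard ≤ (nball G v (4 * C * k + k)).ncard :=
          nball_mono hG hf v (by omega)
      _ ≤ A * (nball G v (4 * C * k)).ncard := h k (by omega) (by omega)
      _ ≤ A * (nball G v n).ncard := by
          exact Nat.mul_le_mul_left A (nball_mono hG hf v hkn)
  set n0 := 8 * C * (4 * C + 1) + 4 * C * (k0 + 1) with hn0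
  have steps : ∀ n, n0 ≤ n → ∀ j, (nball G v (n + j * (n / (8 * C)))).ncard ≤
      A ^ j * (nball G v n).ncard := by
    intro n hn j
    induction j with
    | zero => simp
    | succ j ih =>
      set m := n + j * (n / (8 * C)) with hm
      have hmn : n ≤ m := Nat.le_add_right _ _
      have hs := step m (by omega) (by omega)
      have hdiv : n / (8 * C) ≤ m / (8 * C) := Nat.div_le_div_right hmn
      calc (nball G v (n + (j + 1) * (n / (8 * C)))).ncard
          ≤ (nball G v (m + m / (8 * C))).ncard := by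
            apply nball_mono hG hf
            have : n + (j + 1) * (n / (8 * C)) = m + n / (8 * C) := by rw [hm]; ring
            omega
        _ ≤ A * (nball G v m).ncard := hs
        _ ≤ A * (A ^ j * (nball G v n).ncard) := by gcongr
        _ = A ^ (j + 1) * (nball G v n).ncard := by ring
  have dbl : ∀ n, (nball G v (2 * n + 1)).ncard ≤
      (A ^ (32 * C) * (nball G v (2 * n0 + 1)).ncard) * (nball G v n).ncard := by
    intro n
    have hAp : 1 ≤ A ^ (32 * C) := Nat.one_le_pow _ _ hA
    rcases Nat.lt_or_ge n n0 with hlt | hge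
    · calc (nball G v (2 * n + 1)).ncard ≤ (nball G v (2 * n0 + 1)).ncard :=
            nball_mono hG hf v (by omega)
        _ = 1 * (nball G v (2 * n0 + 1)).ncard * 1 := by ring
        _ ≤ _ := by
            gcongr
            exact nball_pos hG hf v n
    · have h32 : n + 1 ≤ 32 * C * (n / (8 * C)) := by
        have e1 : n < 8 * C * (n / (8 * C) + 1) := Nat.lt_mul_div_succ n (by omega)
        have e2 : 1 ≤ n / (8 * C) := by
          rw [Nat.le_div_iff_mul_le (by omega)]
          nlinarith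
        nlinarith
      calc (nball G v (2 * n + 1)).ncard ≤ (nball G v (n + (32 * C) * (n / (8 * C)))).ncard :=
            nball_mono hG hf v (by omega)
        _ ≤ A ^ (32 * C) * (nball G v n).ncard := steps n hge _
        _ = A ^ (32 * C) * 1 * (nball G v n).ncard := by ring
        _ ≤ _ := by
            gcongr
            exact nball_pos hG hf v _
  refine ⟨((A ^ (32 * C) * (nball G v (2 * n0 + 1)).ncard : ℕ) : ℝ), ?_, ?_⟩
  · have h1 := nball_pos hG hf v (2 * n0 + 1)
    have h2 : 1 ≤ A ^ (32 * C) := Nat.one_le_pow _ _ hA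
    have : 0 < A ^ (32 * C) * (nball G v (2 * n0 + 1)).ncard := by positivity
    exact_mod_cast this
  · intro w r hr
    have e1 : {u : V | (G.dist w u : ℝ) ≤ 2 * r} = nball G w ⌊2 * r⌋₊ := by
      ext u
      simp only [Set.mem_ofPred_eq, nball]
      exact (Nat.le_floor_iff (by positivity)).symm
    have e2 : {u : V | (G.dist w u : ℝ) ≤ r} = nball G w ⌊r⌋₊ := by
      ext u
      simp only [Set.mem_ofPred_eq, nball]
      exact (Nat.le_floor_iff hr.le).symm
    rw [e1, e2, ncard_nball hG ht w v, ncard_nball hG ht w v]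
    have hfl : ⌊2 * r⌋₊ ≤ 2 * ⌊r⌋₊ + 1 := by
      have h1 : r < ⌊r⌋₊ + 1 := Nat.lt_floor_add_one r
      have h2 : ⌊2 * r⌋₊ < 2 * ⌊r⌋₊ + 2 := by
        rw [Nat.floor_lt (by positivity)]
        push_cast
        linarith
      omega
    have h3 := (nball_mono hG hf v hfl).trans (dbl ⌊r⌋₊)
    exact_mod_cast h3

/-- For a vertex transitive graph without volume doubling, large `C_k` occur. -/
theorem large_const {G : SimpleGraph V} (hG : G.Connected) (hf : LocFinite G)
    (ht : VertexTransitive G) (hnd : ¬ VolumeDoubling G) (C k0 : ℕ) :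
    ∃ k, k0 ≤ k ∧ ∃ N, IsNet G k N ∧ (C : ℝ≥0∞) ≤ scaleConst G k N := by
  obtain ⟨v⟩ := hG.nonempty
  set D := C + 1 with hD
  set A := 1 + ((nball G v (6 * D ^ 2 + 3 * D)).ncard + 1) * (2 * D + 1) with hA
  by_contra hcon
  push Not at hcon
  apply hnd
  apply growth hG hf ht v D k0 A (by omega) (by omega)
  intro k hk hk1
  by_contra hbig
  push Not at hbig
  obtain ⟨N, hN, hno⟩ := no_rough hG hf ht v D k (by omega) hk1 hbig
  have h1 := hcon k hk N hN
  have h2 := le_scaleConst hno
  rw [ENNReal.ofReal_natCast] at h2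
  have h3 : (C : ℝ≥0∞) ≤ (D : ℝ≥0∞) := by
    rw [hD]; exact_mod_cast Nat.le_succ C
  exact absurd (h3.trans h2) (not_le.2 h1)

theorem unbounded_choice {G : SimpleGraph V} (hG : G.Connected) (hf : LocFinite G)
    (ht : VertexTransitive G) (hnd : ¬ VolumeDoubling G) :
    ∃ N : ℕ → Set V, (∀ k, 1 ≤ k → IsNet G k (N k)) ∧
      limsup (fun k => scaleConst G k (N k)) atTop = ⊤ := by
  classical
  have hsel : ∀ k : ℕ, ∃ N : Set V, IsNet G k N ∧ ∀ j ≤ k,
      (∃ N', IsNet G k N' ∧ (j : ℝ≥0∞) ≤ scaleConst G k N') → (j : ℝ≥0∞) ≤ scaleConst G k N := by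
    intro k
    have hex0 : ∃ N', IsNet G k N' ∧ ((0 : ℕ) : ℝ≥0∞) ≤ scaleConst G k N' := by
      obtain ⟨N, _, hN⟩ := exists_net (G := G) (k := k) (F := ∅) (by intro u hu; exact absurd hu (Set.notMem_empty u))
      exact ⟨N, hN, by simp⟩
    set P : ℕ → Prop := fun j => ∃ N', IsNet G k N' ∧ (j : ℝ≥0∞) ≤ scaleConst G k N' with hP
    have hspec : P (Nat.findGreatest P k) := by
      rcases Nat.eq_zero_or_pos (Nat.findGreatest P k) with h0 | h0
      · rw [h0]; exact hex0
      · exact Nat.findGreatest_of_ne_zero rfl (by omega)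
    obtain ⟨N, hN, hle⟩ := hspec
    refine ⟨N, hN, fun j hj hPj => ?_⟩
    have : j ≤ Nat.findGreatest P k := Nat.le_findGreatest hj hPj
    exact le_trans (by exact_mod_cast this) hle
  choose N hN hmax using hsel
  refine ⟨N, fun k _ => hN k, ?_⟩
  rw [eq_top_iff]
  apply le_of_forall_lt
  intro c hc
  obtain ⟨M, hM⟩ := ENNReal.exists_nat_gt hc.ne
  refine lt_of_lt_of_le hM ?_
  refine le_limsup_of_frequently_le ?_ (by isBoundedDefault)
  · rw [frequently_atTop]
    intro k0
    obtain ⟨k, hk, N', hN', hle⟩ := large_const hG hf ht hnd M (max k0 M)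
    refine ⟨k, le_trans (le_max_left _ _) hk, hmax k M (le_trans (le_max_right _ _) hk) ⟨N', hN', hle⟩⟩

end Pool.Agent.H385R3.SubScale
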